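import Pool.Agent.Helper65.BQ.St

/-!
# Project BQ, module SEQ
-/

set_option autoImplicit false

open Set Topology TopologicalSpace

namespace Pool.Agent.Helper4.BQ

open Pool.Agent.Helper9.SID Pool.Agent.Helper65.BQ

theorem lo_closed {K : Type} [TopologicalSpace K] {g : K → ℝ} (hg : Continuous g) :
    IsClosed (lo g) := isClosed_le hg continuous_const

theorem hi_closed {K : Type} [TopologicalSpace K] {g : K → ℝ} (hg : Continuous g) :
    IsClosed (hi g) := isClosed_le continuous_const hg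

theorem lo_hi_disj {K : Type} (g : K → ℝ) : Disjoint (lo g) (hi g) := by
  rw [Set.disjoint_left]
  intro x hx hx'
  have h1 : g x ≤ 0 := hx
  have h2 : 1 ≤ g x := hx'
  linarith

theorem pSEQ (hEXT : StEXT) : StSEQ := by
  intro K _ _ f hf T hT
  constructor
  · rintro ⟨A, B, hAB, hess⟩
    have hch : ∀ i, ∃ k, (Subtype.val '' A i : Set K) ⊆ lo (f k) ∧
        (Subtype.val '' B i : Set K) ⊆ hi (f k) := by
      intro i
      obtain ⟨hA, hB, hd⟩ := hAB i
      refine hf.sep _ _ (hT.isClosedEmbedding_subtypeVal.isClosedMap _ hA)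
        (hT.isClosedEmbedding_subtypeVal.isClosedMap _ hB) ?_
      exact (Set.disjoint_image_iff Subtype.val_injective).mpr hd
    choose κ hκ using hch
    refine ⟨κ, fun L hL => ?_⟩
    obtain ⟨x, hx⟩ := hess (fun i => Subtype.val ⁻¹' L i) (fun i => by
      have h1 : IsPartition (lo (f (κ i))) (hi (f (κ i))) (L i) := hL i
      have h2 := h1.preimage (continuous_subtype_val (p := fun x => x ∈ T))
      exact h2.mono (Set.image_subset_iff.mp (hκ i).1) (Set.image_subset_iff.mp (hκ i).2))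
    refine ⟨x.1, x.2, ?_⟩
    rw [Set.mem_iInter] at hx ⊢
    exact hx
  · rintro ⟨κ, hκ⟩
    refine ⟨fun i => Subtype.val ⁻¹' lo (f (κ i)), fun i => Subtype.val ⁻¹' hi (f (κ i)),
      fun i => ⟨(lo_closed (hf.cont _)).preimage continuous_subtype_val,
        (hi_closed (hf.cont _)).preimage continuous_subtype_val,
        (lo_hi_disj _).preimage _⟩, fun L hL => ?_⟩
    have hex : ∀ i, ∃ L' : Set K, Par (f (κ i)) L' ∧ ∀ z (hz : z ∈ T), z ∈ L' →
        (⟨z, hz⟩ : T) ∈ L i := by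
      intro i
      obtain ⟨hLc, U', V', hU', hV', hd, hA, hB, hLU⟩ := hL i
      obtain ⟨U, hU, rfl⟩ := isOpen_induced_iff.mp hU'
      obtain ⟨V, hV, rfl⟩ := isOpen_induced_iff.mp hV'
      obtain ⟨L', h1, h2⟩ := hEXT K T (lo (f (κ i))) (hi (f (κ i))) U V hT (lo_closed (hf.cont _))
        (hi_closed (hf.cont _)) (lo_hi_disj _) hU hV (by
          rw [Set.eq_empty_iff_forall_notMem]
          rintro z ⟨⟨hz, hzU⟩, hzV⟩
          have h5 := Set.disjoint_left.mp hd
          exact @h5 ⟨z, hz⟩ hzU hzV)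
        (fun z hz => @hA ⟨z, hz.1⟩ hz.2) (fun z hz => @hB ⟨z, hz.1⟩ hz.2)
      refine ⟨L', h1, fun z hz hzL => ?_⟩
      by_contra hcon
      have h3 : (⟨z, hz⟩ : T) ∈ (L i)ᶜ := hcon
      rw [hLU] at h3
      rcases h3 with h3 | h3
      · exact (h2 z hz hzL).1 h3
      · exact (h2 z hz hzL).2 h3
    choose L' hL' using hex
    obtain ⟨z, hz, hzL⟩ := hκ L' (fun i => (hL' i).1)
    refine ⟨⟨z, hz⟩, ?_⟩
    rw [Set.mem_iInter] at hzL ⊢
    exact fun i => (hL' i).2 z hz (hzL i)

end Pool.Agent.Helper4.BQ
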